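import Pool.Agent.W325.KZ.Defs

set_option autoImplicit false

open Finset MeasureTheory ProbabilityTheory Filter Topology

namespace Pool.Agent.W382.KZ.Aes

open Pool.Agent.W325.KZ

theorem pol_congr {a b : ℕ → ℝ} {n : ℕ} (h : ∀ k ∈ {k | k < n}, a k = b k) : pol a n = pol b n := by
  funext x
  unfold pol
  exact Finset.sum_congr rfl fun k hk => by rw [h k (Finset.mem_range.1 hk)]

theorem a0_ne : ∀ᵐ a ∂ga, a 0 ≠ 0 := by
  have h : Measure.map (fun a : ℕ → ℝ => a 0) ga = gaussianReal 0 1 :=
    Measure.infinitePi_map_eval (fun _ : ℕ => gaussianReal 0 1) 0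
  have hna : NullSingletonClass (gaussianReal 0 1) := nullSingletonClass_gaussianReal one_ne_zero
  have h2 : ∀ᵐ x ∂(Measure.map (fun a : ℕ → ℝ => a 0) ga), x ≠ 0 := by
    rw [h, ae_iff]
    simp only [ne_eq, not_not, Set.ofPred_eq_eq_singleton]
    exact measure_singleton 0
  exact ae_of_ae_map (measurable_pi_apply 0).aemeasurable h2

theorem aes (hC : S_CV) (hI : S_INJ) (hR : S_ROOT) (hS : S_SIMP) (hM : S_MEAS) : S_AES := by
  intro n hn
  obtain ⟨C, hC0, hC⟩ := hC
  have key : ∀ᵐ a ∂ga, a 0 ≠ 0 → ∀ x, pol a n x = 0 → deriv (pol a n) x ≠ 0 := by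
    rcases eq_or_lt_of_le hn with h1 | h2
    · subst h1
      refine Eventually.of_forall fun a ha x hx => absurd ?_ ha
      simpa [pol] using hx
    · have h0 : ga {a | Cr a n 1 0} = 0 := by
        have h := hC n 1 0 h2 (by
          rw [div_le_one (by positivity)]
          exact_mod_cast hn) le_rfl le_rfl
        simpa using h
      have h1 : ga {a | Cr (rv a n) n 1 0} = 0 := by
        have h := hI (fun k => n - 1 - k) {k | k < n} (by
          intro k hk l hl hkl
          simp only [Set.mem_ofPred_eq] at hk hl hkl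
          omega) {a | Cr a n 1 0} ((hM n).2.2.1 1 0) (by
          intro a b hab
          simp only [Set.mem_ofPred_eq, Cr]
          rw [pol_congr hab])
        rw [h0] at h
        exact h
      have e0 : ∀ᵐ a ∂ga, ¬ Cr a n 1 0 := by
        rw [ae_iff]; simpa using h0
      have e1 : ∀ᵐ a ∂ga, ¬ Cr (rv a n) n 1 0 := by
        rw [ae_iff]; simpa using h1
      filter_upwards [e0, e1] with a h3 h4 _
      exact hS a n hn h3 h4
  filter_upwards [key, a0_ne] with a h1 h0 k
  constructor
  · intro hk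
    obtain ⟨S, hS1, hS2⟩ := (hR a n k).2 (h1 h0)
    exact ⟨S, hk.trans hS1, hS2⟩
  · exact (hR a n k).1 ⟨0, by omega, h0⟩

end Pool.Agent.W382.KZ.Aes
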